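import Pool.Agent.H39.TD.Fin

set_option autoImplicit false

namespace Pool.Agent.Results.MP_9f68ee_co.ThreeDegenerate

/-- Let `D` be a finite digraph (vertices `V`, arcs `A`, tails `tl`, heads `hd`; parallel arcs
allowed) in which every directed cycle has length at least three, and suppose that every nonempty
set `S` of vertices contains a vertex `v` with no arc from `S` to `v`, or no arc from `v` to `S`,
or at most three neighbours in `S`. Then there are three pairwise disjoint sets of arcs, each
meeting every directed cycle. -/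
theorem result (V A : Type) [Fintype V] [Fintype A] (tl hd : A → V)
    (hdeg : ∀ S : Finset V, S.Nonempty → ∃ v ∈ S,
      (¬ ∃ a, tl a ∈ S ∧ hd a = v) ∨ (¬ ∃ a, tl a = v ∧ hd a ∈ S) ∨
      {w : V | w ∈ S ∧ w ≠ v ∧ ∃ a, (tl a = v ∧ hd a = w) ∨ (tl a = w ∧ hd a = v)}.ncard ≤ 3)
    (hg : ∀ (n : ℕ) (c : Fin (n + 1) → A), (∀ i, hd (c i) = tl (c (i + 1))) →
      Function.Injective (fun i => tl (c i)) → 3 ≤ n + 1) :
    ∃ T : Fin 3 → Finset A, Pairwise (fun i j => Disjoint (T i) (T j)) ∧
      ∀ i, ∀ (n : ℕ) (c : Fin (n + 1) → A), (∀ j, hd (c j) = tl (c (j + 1))) →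
        Function.Injective (fun j => tl (c j)) → ∃ j, c j ∈ T i :=
  Pool.Agent.H39.TD.final V A tl hd hdeg hg

end Pool.Agent.Results.MP_9f68ee_co.ThreeDegenerate
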